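import Pool.Agent.V5helper23.PF.Stm

/-! # PF, job DX: derivatives in space of the sums of products -/

set_option autoImplicit false

open MeasureTheory Set Real Filter Topology

namespace Pool.Agent.V5helper86.PF

open Pool.Agent.Y308.BC Pool.Agent.V5helper93.NS Pool.Agent.V5helper23.PF

/-- term by term derivatives of a sum of products -/
lemma gen {f f' g g' : ℕ → ℝ → ℝ} {M : ℝ} {G : ℕ → ℝ} (hG : Summable G)
    (hf : ∀ k, ∀ x ∈ Ioo (0:ℝ) 1, HasDerivAt (f k) (f' k x) x)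
    (hg : ∀ k y, HasDerivAt (g k) (g' k y) y)
    (bf : ∀ k, ∀ x ∈ Ioo (0:ℝ) 1, |f k x| ≤ M) (bf' : ∀ k, ∀ x ∈ Ioo (0:ℝ) 1, |f' k x| ≤ M)
    (bg : ∀ k y, |g k y| ≤ G k) (bg' : ∀ k y, |g' k y| ≤ G k) {p : ℝ × ℝ} (hp : p ∈ sq) :
    HasFDerivAt (fun p : ℝ × ℝ => ∑' k, f k p.1 * g k p.2)
      ((∑' k, f' k p.1 * g k p.2) • ContinuousLinearMap.fst ℝ ℝ ℝ +
        (∑' k, f k p.1 * g' k p.2) • ContinuousLinearMap.snd ℝ ℝ ℝ) p := by
  have hM : 0 ≤ M := (abs_nonneg _).trans (bf 0 p.1 hp.1)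
  have hG0 : ∀ k, 0 ≤ G k := fun k => (abs_nonneg _).trans (bg k 0)
  have b1 : ∀ (u v : ℕ → ℝ → ℝ), (∀ k, ∀ x ∈ Ioo (0:ℝ) 1, |u k x| ≤ M) → (∀ k y, |v k y| ≤ G k) →
      ∀ k, ∀ q ∈ sq, |u k q.1 * v k q.2| ≤ M * G k := by
    intro u v hu hv k q hq
    rw [abs_mul]
    exact mul_le_mul (hu k q.1 hq.1) (hv k q.2) (abs_nonneg _) hM
  have s1 : ∀ (u v : ℕ → ℝ → ℝ), (∀ k, ∀ x ∈ Ioo (0:ℝ) 1, |u k x| ≤ M) → (∀ k y, |v k y| ≤ G k) →
      Summable fun k => u k p.1 * v k p.2 := by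
    intro u v hu hv
    exact Summable.of_norm_bounded (hG.mul_left M) fun k => by
      rw [Real.norm_eq_abs]; exact b1 u v hu hv k p hp
  have ht : ∀ k, ∀ q ∈ sq, HasFDerivAt (fun q : ℝ × ℝ => f k q.1 * g k q.2)
      ((f' k q.1 * g k q.2) • ContinuousLinearMap.fst ℝ ℝ ℝ +
        (f k q.1 * g' k q.2) • ContinuousLinearMap.snd ℝ ℝ ℝ) q := by
    intro k q hq
    have h1 : HasFDerivAt (fun q : ℝ × ℝ => f k q.1) (f' k q.1 • ContinuousLinearMap.fst ℝ ℝ ℝ) q :=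
      (hf k q.1 hq.1).comp_hasFDerivAt q hasFDerivAt_fst
    have h2 : HasFDerivAt (fun q : ℝ × ℝ => g k q.2) (g' k q.2 • ContinuousLinearMap.snd ℝ ℝ ℝ) q :=
      (hg k q.2).comp_hasFDerivAt q hasFDerivAt_snd
    refine (h1.mul h2).congr_fderiv ?_
    ext <;> simp [mul_comm]
  have h := hasFDerivAt_tsum_of_isPreconnected (𝕜 := ℝ) (u := fun k => 2 * (M * G k))
    ((hG.mul_left M).mul_left 2) (isOpen_Ioo.prod isOpen_Ioo)
    (isPreconnected_Ioo.prod isPreconnected_Ioo) ht (fun k q hq => by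
      refine (norm_add_le _ _).trans ?_
      rw [norm_smul, norm_smul, Real.norm_eq_abs, Real.norm_eq_abs]
      have e1 := b1 f' g bf' bg k q hq
      have e2 := b1 f g' bf bg' k q hq
      have n1 := ContinuousLinearMap.norm_fst_le ℝ ℝ ℝ
      have n2 := ContinuousLinearMap.norm_snd_le ℝ ℝ ℝ
      have e3 : |f' k q.1 * g k q.2| * ‖ContinuousLinearMap.fst ℝ ℝ ℝ‖ ≤ M * G k * 1 :=
        mul_le_mul e1 n1 (norm_nonneg _) (mul_nonneg hM (hG0 k))
      have e4 : |f k q.1 * g' k q.2| * ‖ContinuousLinearMap.snd ℝ ℝ ℝ‖ ≤ M * G k * 1 :=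
        mul_le_mul e2 n2 (norm_nonneg _) (mul_nonneg hM (hG0 k))
      linarith) hp (s1 f g bf bg) hp
  refine h.congr_fderiv ?_
  exact (((s1 f' g bf' bg).hasSum.smul_const (ContinuousLinearMap.fst ℝ ℝ ℝ)).add
    ((s1 f g' bf bg').hasSum.smul_const (ContinuousLinearMap.snd ℝ ℝ ℝ))).tsum_eq

lemma lam_exp_le (n : ℕ) {s : ℝ} (hs : 0 < s) :
    lam n * Real.exp (-(lam n) * s) ≤ (2 / s) * Real.exp (-(lam n) * (s / 2)) := by
  have h1 : Real.exp (-(lam n) * s) = Real.exp (-(lam n) * (s / 2)) * Real.exp (-(lam n) * (s / 2)) := by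
    rw [← Real.exp_add]; ring_nf
  have h2 : lam n * (s / 2) * Real.exp (-(lam n) * (s / 2)) ≤ 1 := by
    have h3 := Real.add_one_le_exp (lam n * (s / 2))
    have h4 : Real.exp (lam n * (s / 2)) * Real.exp (-(lam n) * (s / 2)) = 1 := by
      rw [← Real.exp_add]; ring_nf; exact Real.exp_zero
    have h5 := Real.exp_pos (-(lam n) * (s / 2))
    nlinarith
  have h6 : lam n * Real.exp (-(lam n) * (s / 2)) ≤ 2 / s := by
    rw [le_div_iff₀ hs]
    linarith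
  rw [h1, ← mul_assoc]
  exact mul_le_mul_of_nonneg_right h6 (Real.exp_pos _).le

theorem t_DX (h : S_BND) : S_DX := by
  intro a b σ m c ha hb hσ hc t ht p hp
  obtain ⟨hm, hcb⟩ := hc
  have hat : 0 < a * t := mul_pos ha ht
  have hbt : 0 < b * t := mul_pos hb ht
  obtain ⟨K, hK, hKb⟩ := h σ (a * t) hσ hat
  have hx2 : ∀ x ∈ Ioo (0:ℝ) 1, |x| < 2 := fun x hx => by
    rw [abs_of_pos hx.1]; linarith [hx.2]
  have bw : ∀ k, ∀ x ∈ Ioo (0:ℝ) 1, |w (c k) σ (a * t) x| ≤ K * m := fun k x hx =>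
    (hKb (c k) m hm (hcb k) (a * t) x le_rfl (hx2 x hx).le).1
  have bwx : ∀ k, ∀ x ∈ Ioo (0:ℝ) 1, |wx (c k) σ (a * t) x| ≤ K * m := fun k x hx =>
    (hKb (c k) m hm (hcb k) (a * t) x le_rfl (hx2 x hx).le).2.1
  have bwxx : ∀ k, ∀ x ∈ Ioo (0:ℝ) 1, |wxx (c k) σ (a * t) x| ≤ K * m := fun k x hx =>
    (hKb (c k) m hm (hcb k) (a * t) x le_rfl (hx2 x hx).le).2.2
  have dw : ∀ k, ∀ x ∈ Ioo (0:ℝ) 1, HasDerivAt (fun x => w (c k) σ (a * t) x)
      (wx (c k) σ (a * t) x) x := fun k x hx => w_dx hm (hcb k) hσ hat (hx2 x hx)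
  have dwx : ∀ k, ∀ x ∈ Ioo (0:ℝ) 1, HasDerivAt (fun x => wx (c k) σ (a * t) x)
      (wxx (c k) σ (a * t) x) x := fun k x hx => w_dxx hm (hcb k) hσ hat (hx2 x hx)
  set s := b * t with hs
  -- the functions of `y`
  have dg : ∀ k y, HasDerivAt (fun y => Real.exp (-(lam k) * s) * es k y)
      (Real.exp (-(lam k) * s) * (kk k * ec k y)) y := fun k y =>
    (hasDerivAt_es k y).const_mul _
  have dg' : ∀ k y, HasDerivAt (fun y => Real.exp (-(lam k) * s) * (kk k * ec k y))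
      (Real.exp (-(lam k) * s) * (-(lam k) * es k y)) y := fun k y => by
    have h1 := ((hasDerivAt_ec k y).const_mul (kk k)).const_mul (Real.exp (-(lam k) * s))
    refine h1.congr_deriv ?_
    unfold lam; ring
  have kkl : ∀ k, kk k ≤ lam k := fun k => by
    have h1 := kk_ge k
    have h2 : (1:ℝ) ≤ kk k := by
      have : (0:ℝ) ≤ k := Nat.cast_nonneg k
      linarith
    unfold lam; nlinarith
  have hG : Summable fun k => √2 * ((2 / s) * Real.exp (-(lam k) * (s / 2))) :=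
    ((exp_lam_summable (half_pos hbt)).mul_left _).mul_left _
  have h2 : (0:ℝ) ≤ √2 := Real.sqrt_nonneg 2
  have key : ∀ k (r z : ℝ), 0 ≤ r → r ≤ lam k → |z| ≤ √2 →
      |Real.exp (-(lam k) * s) * (r * z)| ≤ √2 * ((2 / s) * Real.exp (-(lam k) * (s / 2))) := by
    intro k r z hr hrl hz
    rw [abs_mul, abs_mul, abs_of_pos (Real.exp_pos _), abs_of_nonneg hr]
    have h1 := lam_exp_le k hbt
    have h3 := Real.exp_pos (-(lam k) * s)
    calc Real.exp (-(lam k) * s) * (r * |z|) ≤ Real.exp (-(lam k) * s) * (lam k * √2) := by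
          refine mul_le_mul_of_nonneg_left (mul_le_mul hrl hz (abs_nonneg _) (hr.trans hrl)) h3.le
      _ = √2 * (lam k * Real.exp (-(lam k) * s)) := by ring
      _ ≤ _ := mul_le_mul_of_nonneg_left h1 h2
  have bg : ∀ k y, |Real.exp (-(lam k) * s) * es k y| ≤
      √2 * ((2 / s) * Real.exp (-(lam k) * (s / 2))) := fun k y => by
    have := key k 1 (es k y) zero_le_one (one_le_lam k) (es_le k y)
    rwa [one_mul] at this
  have bg' : ∀ k y, |Real.exp (-(lam k) * s) * (kk k * ec k y)| ≤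
      √2 * ((2 / s) * Real.exp (-(lam k) * (s / 2))) := fun k y =>
    key k (kk k) (ec k y) (kk_pos k).le (kkl k) (ec_le k y)
  have bg'' : ∀ k y, |Real.exp (-(lam k) * s) * (-(lam k) * es k y)| ≤
      √2 * ((2 / s) * Real.exp (-(lam k) * (s / 2))) := fun k y => by
    have := key k (lam k) (-es k y) (lam_pos k).le le_rfl (by rw [abs_neg]; exact es_le k y)
    have e : lam k * -es k y = -(lam k) * es k y := by ring
    rwa [e] at this
  refine ⟨?_, ?_, ?_⟩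
  · exact gen hG dw dg bw bwx bg bg' hp
  · exact gen hG dwx dg bwx bwxx bg bg' hp
  · exact gen hG dw dg' bw bwx bg' bg'' hp

end Pool.Agent.V5helper86.PF
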